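import Pool.Agent.Helper9.Lin.LogInt
import Pool.Agent.Helper27.PCap.Circ

/-! # Smooth functions with nonnegative Levi form are plurisubharmonic -/

open Complex Metric Set Filter Topology MeasureTheory
open scoped ContDiff ComplexConjugate ComplexOrder

set_option linter.all false

namespace Pool.Agent.Helper11.HS

open Pool.Agent.Helper95.Lin Pool.Agent.Helper25.PCap

variable {n : ℕ}

/-- The real affine parametrisation of a complex line. -/
noncomputable def pl (x e : Cn n) (p : ℝ × ℝ) : Cn n := x + p.1 • e + p.2 • (I • e)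

lemma pl_eq (x e : Cn n) (p : ℝ × ℝ) : pl x e p = x + ((p.1 : ℂ) + p.2 * I) • e := by
  unfold pl
  ext i
  simp [add_smul, mul_smul]
  ring

lemma pl_smooth (x e : Cn n) {k : WithTop ℕ∞} : ContDiff ℝ k (pl x e) := by
  unfold pl
  fun_prop

/-- The derivative of `pl`. -/
noncomputable def plL (e : Cn n) : ℝ × ℝ →L[ℝ] Cn n :=
  (ContinuousLinearMap.fst ℝ ℝ ℝ).smulRight e + (ContinuousLinearMap.snd ℝ ℝ ℝ).smulRight (I • e)

lemma pl_deriv (x e : Cn n) (p : ℝ × ℝ) : HasFDerivAt (pl x e) (plL e) p := by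
  have h : pl x e = fun p => x + plL e p := by
    funext p
    simp [pl, plL, add_assoc]
  rw [h]
  exact (plL e).hasFDerivAt.const_add x

lemma D_comp {u : Cn n → ℝ} {x e : Cn n} {p : ℝ × ℝ} (hu : DifferentiableAt ℝ u (pl x e p))
    (v : ℝ × ℝ) : fderiv ℝ (fun p => u (pl x e p)) p v = fderiv ℝ u (pl x e p) (plL e v) := by
  have h := hu.hasFDerivAt.comp p (pl_deriv x e p)
  rw [show (fun p => u (pl x e p)) = u ∘ pl x e from rfl, h.fderiv]
  rfl

theorem pshOn_of_lev {u : Cn n → ℝ} {M : Set (Cn n)} (hM : IsOpen M) (hu : ContDiffOn ℝ 2 u M)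
    (hl : ∀ y ∈ M, ∀ e, 0 ≤ lev u y e) : PshOn u M := by
  intro x hx e he
  set ψ : ℝ × ℝ → ℝ := fun p => u (pl x e p) with hψ
  set O : Set (ℝ × ℝ) := pl x e ⁻¹' M with hO
  have hOo : IsOpen O := hM.preimage (pl_smooth x e (k := 0)).continuous
  have hfd : ContDiffOn ℝ 1 (fderiv ℝ u) M := hu.fderiv_of_isOpen hM (by norm_num)
  have hd : ∀ p ∈ O, DifferentiableAt ℝ u (pl x e p) := fun p hp =>
    (hu.differentiableOn two_ne_zero).differentiableAt (hM.mem_nhds hp)
  have hd2 : ∀ v, ∀ p ∈ O, DifferentiableAt ℝ (fun y => fderiv ℝ u y v) (pl x e p) :=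
    fun v p hp => ((hfd.differentiableOn one_ne_zero).differentiableAt (hM.mem_nhds hp)).clm_apply
      (differentiableAt_const v)
  have hD : ∀ v : ℝ × ℝ, ∀ p ∈ O, fderiv ℝ (fun q => fderiv ℝ ψ q v) p v =
      hess u (pl x e p) (plL e v) (plL e v) := by
    intro v p hp
    have h1 : (fun q => fderiv ℝ ψ q v) =ᶠ[𝓝 p] fun q => fderiv ℝ u (pl x e q) (plL e v) := by
      filter_upwards [hOo.mem_nhds hp] with q hq
      exact D_comp (hd q hq) v
    rw [h1.fderiv_eq]
    exact D_comp (u := fun y => fderiv ℝ u y (plL e v)) (hd2 _ p hp) v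
  have hlap : ∀ p ∈ O, D1 (D1 ψ) p + D2 (D2 ψ) p = lev u (pl x e p) e := by
    intro p hp
    have h1 := hD (1, 0) p hp
    have h2 := hD (0, 1) p hp
    have e1 : plL e (1, 0) = e := by simp [plL]
    have e2 : plL e (0, 1) = I • e := by simp [plL]
    rw [e1] at h1
    rw [e2] at h2
    unfold lev
    rw [← h1, ← h2]
    rfl
  -- a slightly larger disc
  have hK : IsCompact ((fun ζ : ℂ => x + ζ • e) '' closedBall (0 : ℂ) 1) :=
    (isCompact_closedBall _ _).image (by fun_prop)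
  have hKM : closedBall (0 : ℂ) 1 ⊆ (fun ζ : ℂ => x + ζ • e) ⁻¹' M := fun ζ hζ =>
    he ζ (by simpa using hζ)
  have hMo : IsOpen ((fun ζ : ℂ => x + ζ • e) ⁻¹' M) := hM.preimage (by fun_prop)
  obtain ⟨δ, hδ, hδM⟩ := (isCompact_closedBall (0 : ℂ) 1).exists_cthickening_subset_open hMo hKM
  have hR : (1 : ℝ) < 1 + δ := by linarith
  have hsub : {y : ℝ × ℝ | (y.1 - (0 : ℝ × ℝ).1) ^ 2 + (y.2 - (0 : ℝ × ℝ).2) ^ 2 ≤
      (1 + δ) ^ 2} ⊆ O := by
    intro y hy
    simp only [Prod.fst_zero, Prod.snd_zero, sub_zero, mem_ofPred_eq] at hy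
    have h1 : ((y.1 : ℂ) + y.2 * I) ∈ cthickening δ (closedBall (0 : ℂ) 1) := by
      rw [cthickening_closedBall hδ.le zero_le_one, mem_closedBall_zero_iff]
      have h2 : ‖((y.1 : ℂ) + y.2 * I)‖ ^ 2 = y.1 ^ 2 + y.2 ^ 2 := by
        rw [← Complex.normSq_eq_norm_sq, Complex.normSq_add_mul_I]
      have h3 : ‖((y.1 : ℂ) + y.2 * I)‖ ^ 2 ≤ (1 + δ) ^ 2 := by rw [h2]; exact hy
      have h4 := abs_le_of_sq_le_sq h3 (by linarith)
      have := (abs_le.1 (abs_le_of_sq_le_sq h3 (by linarith))).2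
      linarith
    have := hδM h1
    rw [hO, mem_preimage, pl_eq]
    exact this
  have hψs : ContDiffOn ℝ 2 ψ O := hu.comp (pl_smooth x e).contDiffOn (fun p hp => hp)
  obtain ⟨h1, h2, h3, h4⟩ := Pool.Agent.Helper27.PCap.pkCirc ψ 0 (1 + δ) O (by linarith) hOo hsub hψs
  have hnn : ∀ s ∈ Ioo 0 (1 + δ), 0 ≤ cmean (fun y => D1 (D1 ψ) y + D2 (D2 ψ) y) 0 s := by
    intro s hs
    unfold cmean
    apply mul_nonneg (by positivity)
    apply intervalIntegral.integral_nonneg (by positivity)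
    intro φ _
    have hmem := Pool.Agent.Helper27.PCap.gam_mem hsub (r := s) ⟨hs.1.le, hs.2.le⟩ φ
    unfold Pool.Agent.Helper27.PCap.gam at hmem
    simp only [hlap _ hmem]
    exact hl _ hmem e
  have hmono : MonotoneOn (cmean ψ 0) (Icc 0 (1 + δ)) := by
    apply monotoneOn_of_deriv_nonneg (convex_Icc _ _) h1
    · rw [interior_Icc]
      exact fun r hr => (h4 r hr).differentiableAt.differentiableWithinAt
    · rw [interior_Icc]
      intro r hr
      rw [(h4 r hr).deriv]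
      apply mul_nonneg (by have := hr.1; positivity)
      apply intervalIntegral.integral_nonneg hr.1.le
      intro s hs
      rcases hs.1.eq_or_lt with h | h
      · rw [← h, zero_mul]
      · exact mul_nonneg hs.1 (hnn s ⟨h, hs.2.trans_lt hr.2⟩)
  have h5 := hmono (a := 0) (b := 1) ⟨le_rfl, by linarith⟩ ⟨zero_le_one, hR.le⟩ zero_le_one
  rw [h2] at h5
  have h6 : ψ 0 = u x := by
    simp [hψ, pl]
  rw [h6] at h5
  refine h5.trans_eq ?_
  unfold cmean
  rw [Real.circleAverage_def, smul_eq_mul, one_div]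
  congr 1
  apply intervalIntegral.integral_congr
  intro θ _
  simp only [hψ, pl_eq]
  congr 3
  rw [circleMap, zero_add, Complex.ofReal_one, one_mul, Complex.exp_mul_I]
  simp

end Pool.Agent.Helper11.HS
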