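import Pool.Agent.Helper11.HS.Psh
import Pool.Agent.Helper15.HS.GoalsC

/-! # Packet SUBM -/

open Complex Metric Set Filter Topology MeasureTheory
open scoped ContDiff ComplexConjugate ComplexOrder

set_option linter.all false

namespace Pool.Agent.Helper11.HS

open Pool.Agent.Helper95.Lin Pool.Agent.Helper15.HS

variable {n : ℕ}

/-- The square of the Euclidean distance to `x`. -/
noncomputable def sq (x y : Cn n) : ℝ := ∑ j, ((y j - x j).re ^ 2 + (y j - x j).im ^ 2)

lemma sq_smooth (x : Cn n) {k : WithTop ℕ∞} : ContDiff ℝ k (sq x) := by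
  unfold sq
  apply ContDiff.sum
  intro j _
  have h1 : ContDiff ℝ k (fun y : Cn n => y j - x j) := by fun_prop
  exact ((Complex.reCLM.contDiff.comp h1).pow 2).add ((Complex.imCLM.contDiff.comp h1).pow 2)

lemma sq_deriv (x y v : Cn n) : fderiv ℝ (sq x) y v =
    ∑ j, (2 * (y j - x j).re * (v j).re + 2 * (y j - x j).im * (v j).im) := by
  have h : HasFDerivAt (sq x) (∑ j, ((2 * (y j - x j).re) • (Complex.reCLM.comp
      (ContinuousLinearMap.proj (R := ℝ) (φ := fun _ : Fin n => ℂ) j)) +
      (2 * (y j - x j).im) • (Complex.imCLM.comp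
      (ContinuousLinearMap.proj (R := ℝ) (φ := fun _ : Fin n => ℂ) j)))) y := by
    unfold sq
    apply HasFDerivAt.fun_sum
    intro j _
    have h1 : HasFDerivAt (fun y : Cn n => y j - x j)
        (ContinuousLinearMap.proj (R := ℝ) (φ := fun _ : Fin n => ℂ) j) y :=
      (ContinuousLinearMap.proj (R := ℝ) (φ := fun _ : Fin n => ℂ) j).hasFDerivAt.sub_const _
    have h2 := (Complex.reCLM.hasFDerivAt (x := y j - x j)).comp y h1
    have h3 := (Complex.imCLM.hasFDerivAt (x := y j - x j)).comp y h1
    have h4 := (h2.pow 2).add (h3.pow 2)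
    refine h4.congr_fderiv ?_
    ext w
    simp
  rw [h.fderiv]
  simp

lemma sq_hess (x y v : Cn n) : hess (sq x) y v v = ∑ j, 2 * ‖v j‖ ^ 2 := by
  unfold hess
  have h0 : (fun y => fderiv ℝ (sq x) y v) = fun y =>
      ∑ j, (2 * (y j - x j).re * (v j).re + 2 * (y j - x j).im * (v j).im) := by
    funext y
    exact sq_deriv x y v
  rw [h0]
  have h : HasFDerivAt (fun y : Cn n =>
      ∑ j, (2 * (y j - x j).re * (v j).re + 2 * (y j - x j).im * (v j).im))
      (∑ j, ((2 * (v j).re) • (Complex.reCLM.comp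
      (ContinuousLinearMap.proj (R := ℝ) (φ := fun _ : Fin n => ℂ) j)) +
      (2 * (v j).im) • (Complex.imCLM.comp
      (ContinuousLinearMap.proj (R := ℝ) (φ := fun _ : Fin n => ℂ) j)))) y := by
    apply HasFDerivAt.fun_sum
    intro j _
    have h1 : HasFDerivAt (fun y : Cn n => y j - x j)
        (ContinuousLinearMap.proj (R := ℝ) (φ := fun _ : Fin n => ℂ) j) y :=
      (ContinuousLinearMap.proj (R := ℝ) (φ := fun _ : Fin n => ℂ) j).hasFDerivAt.sub_const _
    have h2 := (Complex.reCLM.hasFDerivAt (x := y j - x j)).comp y h1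
    have h3 := (Complex.imCLM.hasFDerivAt (x := y j - x j)).comp y h1
    have h4 := (h2.const_mul (2 * (v j).re)).add (h3.const_mul (2 * (v j).im))
    convert h4 using 1
    funext z
    simp only [Function.comp, Complex.reCLM_apply, Complex.imCLM_apply, Pi.add_apply]
    ring
  rw [h.fderiv]
  simp only [ContinuousLinearMap.sum_apply, ContinuousLinearMap.add_apply,
    ContinuousLinearMap.smul_apply, ContinuousLinearMap.comp_apply,
    ContinuousLinearMap.proj_apply, Complex.reCLM_apply, Complex.imCLM_apply, smul_eq_mul]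
  apply Finset.sum_congr rfl
  intro j _
  rw [← Complex.normSq_eq_norm_sq, Complex.normSq_apply]
  ring

lemma sq_lev (x y e : Cn n) : lev (sq x) y e = 4 * ∑ j, ‖e j‖ ^ 2 := by
  unfold lev
  rw [sq_hess, sq_hess, ← Finset.sum_add_distrib, Finset.mul_sum]
  apply Finset.sum_congr rfl
  intro j _
  simp
  ring

lemma hess_add {u v : Cn n → ℝ} {M : Set (Cn n)} (hM : IsOpen M) (hu : ContDiffOn ℝ 2 u M)
    (hv : ContDiffOn ℝ 2 v M) (K : ℝ) {y : Cn n} (hy : y ∈ M) (a : Cn n) :
    hess (fun z => u z + K * v z) y a a = hess u y a a + K * hess v y a a := by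
  unfold hess
  have hd : ∀ w : Cn n → ℝ, ContDiffOn ℝ 2 w M → ∀ z ∈ M, DifferentiableAt ℝ w z :=
    fun w hw z hz => (hw.differentiableOn two_ne_zero).differentiableAt (hM.mem_nhds hz)
  have hd2 : ∀ w : Cn n → ℝ, ContDiffOn ℝ 2 w M →
      DifferentiableAt ℝ (fun z => fderiv ℝ w z a) y := by
    intro w hw
    have hfd : ContDiffOn ℝ 1 (fderiv ℝ w) M := hw.fderiv_of_isOpen hM (by norm_num)
    exact ((hfd.differentiableOn one_ne_zero).differentiableAt (hM.mem_nhds hy)).clm_apply
      (differentiableAt_const a)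
  have h1 : (fun z => fderiv ℝ (fun z => u z + K * v z) z a) =ᶠ[𝓝 y]
      fun z => fderiv ℝ u z a + K * fderiv ℝ v z a := by
    filter_upwards [hM.mem_nhds hy] with z hz
    have := ((hd u hu z hz).hasFDerivAt.add ((hd v hv z hz).hasFDerivAt.const_mul K))
    have e : (fun z => u z + K * v z) = u + fun z => K * v z := rfl
    rw [e, this.fderiv]
    simp
  rw [h1.fderiv_eq]
  have := ((hd2 u hu).hasFDerivAt.add ((hd2 v hv).hasFDerivAt.const_mul K))
  have e : (fun z => fderiv ℝ u z a + K * fderiv ℝ v z a) =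
      (fun z => fderiv ℝ u z a) + fun z => K * fderiv ℝ v z a := rfl
  rw [e, this.fderiv]
  simp

lemma hess_exp {u : Cn n → ℝ} {M : Set (Cn n)} (hM : IsOpen M) (hu : ContDiffOn ℝ 2 u M)
    {y : Cn n} (hy : y ∈ M) (a : Cn n) :
    hess (fun z => Real.exp (u z)) y a a =
      Real.exp (u y) * (hess u y a a + (fderiv ℝ u y a) ^ 2) := by
  unfold hess
  have hd : ∀ z ∈ M, DifferentiableAt ℝ u z :=
    fun z hz => (hu.differentiableOn two_ne_zero).differentiableAt (hM.mem_nhds hz)
  have hd2 : DifferentiableAt ℝ (fun z => fderiv ℝ u z a) y := by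
    have hfd : ContDiffOn ℝ 1 (fderiv ℝ u) M := hu.fderiv_of_isOpen hM (by norm_num)
    exact ((hfd.differentiableOn one_ne_zero).differentiableAt (hM.mem_nhds hy)).clm_apply
      (differentiableAt_const a)
  have h1 : (fun z => fderiv ℝ (fun z => Real.exp (u z)) z a) =ᶠ[𝓝 y]
      fun z => Real.exp (u z) * fderiv ℝ u z a := by
    filter_upwards [hM.mem_nhds hy] with z hz
    rw [(hd z hz).hasFDerivAt.exp.fderiv]
    simp
  rw [h1.fderiv_eq]
  have := (hd y hy).hasFDerivAt.exp.mul hd2.hasFDerivAt
  have e : (fun z => Real.exp (u z) * fderiv ℝ u z a) =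
      (fun z => Real.exp (u z)) * fun z => fderiv ℝ u z a := rfl
  rw [e, this.fderiv]
  simp
  ring

theorem subm : S_SUBM := by
  intro n r K hr hK
  set V : ℝ := volume.real (closedBall (0 : Cn n) r) with hV
  have hVpos : 0 < V := by
    rw [hV]
    exact ENNReal.toReal_pos (measure_closedBall_pos _ _ hr).ne'
      (isCompact_closedBall _ _).measure_lt_top.ne
  refine ⟨Real.exp (K * (n * r ^ 2)) / V, by positivity, ?_⟩
  intro x u hu hl
  set φ : Cn n → ℝ := fun z => u z + K * sq x z with hφ
  have hM : IsOpen (ball x (2 * r)) := isOpen_ball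
  have hu2 : ContDiffOn ℝ 2 u (ball x (2 * r)) := (contDiffOn_infty.1 hu 2)
  have hφs : ContDiffOn ℝ 2 φ (ball x (2 * r)) :=
    hu2.add (contDiffOn_const.mul (sq_smooth x).contDiffOn)
  have hlev : ∀ y ∈ ball x (2 * r), ∀ e, 0 ≤ lev φ y e := by
    intro y hy e
    have h1 : lev φ y e = lev u y e + K * lev (sq x) y e := by
      unfold lev
      rw [hess_add hM hu2 (sq_smooth x).contDiffOn K hy e,
        hess_add hM hu2 (sq_smooth x).contDiffOn K hy (I • e)]
      ring
    rw [h1, sq_lev]
    have h2 := hl y hy e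
    have h3 : ‖e‖ ^ 2 ≤ ∑ j, ‖e j‖ ^ 2 := by
      rcases isEmpty_or_nonempty (Fin n) with h | h
      · have : e = 0 := Subsingleton.elim _ _
        rw [this]
        simp
      · obtain ⟨j, hj⟩ : ∃ j, ‖e‖ = ‖e j‖ := by
          obtain ⟨j, -, hj⟩ := Finset.exists_mem_eq_sup' (Finset.univ_nonempty (α := Fin n))
            (fun j => ‖e j‖)
          refine ⟨j, le_antisymm ?_ (norm_le_pi_norm e j)⟩
          rw [pi_norm_le_iff_of_nonneg (norm_nonneg _)]
          intro i
          rw [← hj]
          exact Finset.le_sup' (fun j => ‖e j‖) (Finset.mem_univ i)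
        rw [hj]
        exact Finset.single_le_sum (f := fun j => ‖e j‖ ^ 2) (fun i _ => by positivity)
          (Finset.mem_univ j)
    have h4 : 0 ≤ ‖e‖ ^ 2 := by positivity
    nlinarith
  have hexp : ∀ y ∈ ball x (2 * r), ∀ e, 0 ≤ lev (fun z => Real.exp (φ z)) y e := by
    intro y hy e
    have h1 : lev (fun z => Real.exp (φ z)) y e = Real.exp (φ y) * (lev φ y e +
        (fderiv ℝ φ y e) ^ 2 + (fderiv ℝ φ y (I • e)) ^ 2) := by
      unfold lev
      rw [hess_exp hM hφs hy e, hess_exp hM hφs hy (I • e)]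
      ring
    rw [h1]
    have := hlev y hy e
    positivity
  have hpsh := pshOn_of_lev hM hφs.exp hexp
  have hsub : closedBall x r ⊆ ball x (2 * r) := closedBall_subset_ball (by linarith)
  have h1 := Pool.Agent.Helper9.Lin.ball_sub hφs.exp.continuousOn hpsh hr.le hsub
  have h2 : volume.real (closedBall x r) = V := by
    rw [hV, Measure.real, Measure.real, Measure.addHaar_closedBall_center volume x r]
  have h3 : φ x = u x := by simp [hφ, sq]
  rw [h2, h3] at h1
  have hc1 : IntegrableOn (fun y => Real.exp (φ y)) (closedBall x r) :=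
    (hφs.exp.continuousOn.mono hsub).integrableOn_compact (isCompact_closedBall _ _)
  have hc2 : IntegrableOn (fun y => Real.exp (K * (n * r ^ 2)) * Real.exp (u y))
      (closedBall x r) :=
    ((hu2.exp.continuousOn.mono hsub).integrableOn_compact (isCompact_closedBall _ _)).const_mul _
  have h4 : ∫ y in closedBall x r, Real.exp (φ y) ≤
      ∫ y in closedBall x r, Real.exp (K * (n * r ^ 2)) * Real.exp (u y) := by
    apply setIntegral_mono_on hc1 hc2 measurableSet_closedBall
    intro y hy
    rw [← Real.exp_add]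
    apply Real.exp_le_exp.2
    have h5 : sq x y ≤ n * r ^ 2 := by
      unfold sq
      calc ∑ j, ((y j - x j).re ^ 2 + (y j - x j).im ^ 2) ≤ ∑ j : Fin n, r ^ 2 := by
            apply Finset.sum_le_sum
            intro j _
            have h6 : ‖y j - x j‖ ≤ r := by
              rw [mem_closedBall, dist_eq_norm] at hy
              exact (norm_le_pi_norm (y - x) j).trans hy
            have h7 : (y j - x j).re ^ 2 + (y j - x j).im ^ 2 = ‖y j - x j‖ ^ 2 := by
              rw [← Complex.normSq_eq_norm_sq, Complex.normSq_apply]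
              ring
            rw [h7]
            exact pow_le_pow_left₀ (norm_nonneg _) h6 2
        _ = n * r ^ 2 := by simp
    have := mul_le_mul_of_nonneg_left h5 hK
    simp only [hφ]
    linarith
  rw [integral_const_mul] at h4
  rw [div_mul_eq_mul_div, le_div_iff₀ hVpos]
  exact h1.trans h4

end Pool.Agent.Helper11.HS
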